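import Pool.Agent.H.MP_e9bccb.J

set_option autoImplicit false
open Set Filter Topology TopologicalSpace

namespace Pool.Agent.H.MP_d57a60
open MP_e9bccb (LS toU ofU)

theorem lind {Z : Type} [TopologicalSpace Z] {A : Set Z} (h : LS A) : IsLindelof A := by
  obtain ⟨N, hN⟩ := h
  intro F _ _ e
  obtain ⟨z, z1, z2⟩ := F.nonempty_of_mem (inter_mem (le_principal_iff.1 e) ((countable_bInter_mem
    (to_countable {n | (N n)ᶜ ∈ F})).2 fun n a => a))
  exact hN z z1 F fun n a => ⟨fun b => mem_iInter₂.1 z2 n (inf_principal_eq_bot.1 b) a⟩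

variable {X : Type} [TopologicalSpace X] [T35Space X]

abbrev Z (X : Type) [TopologicalSpace X] := {f : X → Icc (0 : ℝ) 1 // Continuous f}

omit [T35Space X] in
theorem one {g : Z X} {y : X} {A : Set X} (h : y ∈ closure A) (k : ∀ a ∈ A, g.1 a = 1) :
    g.1 y ≠ 0 := by
  rw [(isClosed_eq g.2 continuous_const).closure_subset_iff.2 k h]
  exact one_ne_zero

theorem tight (h : LS (univ : Set (Z X))) {y : X} (e : ¬IsOpen {y}) :
    ∃ a : ℕ → X, (∀ i, a i ≠ y) ∧ y ∈ closure (range a) := by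
  have ev : ∀ q, Continuous fun g : Z X => g.1 q := fun q =>
    (continuous_apply q).comp continuous_subtype_val
  have : y ∈ closure {y}ᶜ := by
    rw [closure_compl]
    exact fun k => e (subset_interior_iff_isOpen.1 (singleton_subset_iff.2 k))
  have l : IsLindelof {g : Z X | g.1 y = 0} :=
    (lind h).of_isClosed_subset (isClosed_eq (ev y) continuous_const) (subset_univ _)
  obtain ⟨r, r1, r2⟩ := l.elim_countable_subcover (fun a : ({y}ᶜ : Set X) =>
      {g : Z X | g.1 a ≠ 1}) (fun a => isOpen_ne_fun (ev a) continuous_const) fun g b =>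
        by_contra fun c => one this (fun a k => by_contra fun l => c (mem_iUnion.2 ⟨⟨a, k⟩, l⟩)) b
  have : y ∈ closure (Subtype.val '' r) := by_contra fun c => by
    obtain ⟨g, g1, g2, g3⟩ := CompletelyRegularSpace.completely_regular y _ isClosed_closure c
    obtain ⟨a, a1, a2⟩ := mem_iUnion₂.1 (r2 (a := ⟨g, g1⟩) g2)
    exact a2 (g3 (subset_closure ⟨a, a1, rfl⟩))
  obtain ⟨a, ha⟩ := (r1.image Subtype.val).exists_eq_range (closure_nonempty_iff.1 ⟨y, this⟩)
  refine ⟨a, fun i => ?_, ha ▸ this⟩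
  obtain ⟨b, -, e⟩ := ha.ge ⟨i, rfl⟩
  exact e ▸ b.2

def P (N : ℕ → Set (Z X)) (a : X → ℕ → X) (c : Finset ℕ × Finset ℕ) (y : X) : Prop :=
  ∃ h ∈ ⋂ j ∈ c.1, N j, h.1 y = 0 ∧ ∀ i ∈ c.2, h.1 (a y i) = 1

theorem bdd {N : ℕ → Set (Z X)} (hN : ∀ z, ∀ U : Ultrafilter (Z X), (∀ i, z ∈ N i → N i ∈ U) →
    ∃ w : Z X, ↑U ≤ 𝓝 w) {a : X → ℕ → X} {Y : Set X} (ha : ∀ y ∈ Y, ∀ i, a y i ≠ y) {p : X}
    (hp : p ∈ closure (range (a p))) {f : X → ℝ} (hf : Continuous f) :
    ∃ T : Finset (Finset ℕ × Finset ℕ), (∀ c ∈ T, ¬P N a c p) ∧ ∃ r, ∀ y ∈ Y,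
      (∀ c ∈ T, ¬P N a c y) → f y ≤ r := by
  classical
  by_contra! c
  obtain ⟨s, hs⟩ := exists_surjective_nat (Finset ℕ × Finset ℕ)
  choose y y1 y2 y3 using fun n : ℕ => c (((Finset.range n).image s).filter fun c => ¬P N a c p)
    (fun c e => (Finset.mem_filter.1 e).2) n
  have y4 : Tendsto (fun n => f (y n)) (hyperfilter ℕ) atTop := (tendsto_atTop_mono
    (fun n => (y3 n).le) tendsto_natCast_atTop_atTop).mono_left Nat.hyperfilter_le_atTop
  obtain ⟨x, x1, x2⟩ := exists_seq_of_forall_finset_exists (fun x : ℕ × ℕ × Set X =>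
    IsOpen x.2.2 ∧ y x.2.1 ∈ x.2.2 ∧ x.1 ≤ x.2.1 ∧ (∀ t ∈ x.2.2, x.1 < f t ∧ f t < f (y x.2.1) + 1) ∧
      ∀ i ≤ x.1, a (y x.2.1) i ∉ x.2.2) (fun x x' => x.1 < x'.1 ∧ f (y x.2.1) + 1 ≤ x'.1 ∧
        ∀ i ≤ x'.1, a (y x.2.1) i ∉ x'.2.2 ∧ (a (y x'.2.1) i ∈ x.2.2 →
          ∀ᶠ n in hyperfilter ℕ, a (y n) i ∈ x.2.2)) fun S _ => by
    obtain ⟨k, hk⟩ := (S.eventually_all.2 fun x _ => (eventually_gt_atTop x.1).and
      (tendsto_natCast_atTop_atTop.eventually_ge_atTop (f (y x.2.1) + 1))).exists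
    obtain ⟨m, ⟨m1, m2⟩, m3⟩ := ((((eventually_ge_atTop k).filter_mono Nat.hyperfilter_le_atTop).and
      (y4.eventually_gt_atTop k)).and (S.eventually_all.2 fun x _ =>
        (finite_le_nat k).eventually_all.2 fun i _ => (y4.eventually_gt_atTop
          (f (a (y x.2.1) i))).and ((em (∀ᶠ n in hyperfilter ℕ, a (y n) i ∈ x.2.2)).elim
            (fun e => .of_forall fun _ _ => e) fun e => (Ultrafilter.eventually_not.2 e).mono
              fun _ b c => (b c).elim))).exists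
    have := ((finite_le_nat k).image (a (y m))).union (S.finite_toSet.biUnion fun x _ =>
      (finite_le_nat k).image (a (y x.2.1)))
    refine ⟨(k, m, {t | k < f t ∧ f t < f (y m) + 1} \ _), ⟨((isOpen_lt continuous_const hf).inter
      (isOpen_lt hf continuous_const)).sdiff this.isClosed, ⟨⟨m2, lt_add_one _⟩, ?_⟩, m1,
        fun t e => e.1, fun i e b => b.2 (.inl ⟨i, e, rfl⟩)⟩, fun x e => ⟨(hk x e).1, (hk x e).2,
          fun i b => ⟨fun c => c.2 (.inr (mem_biUnion e ⟨i, b, rfl⟩)), (m3 x e i b).2⟩⟩⟩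
    rintro (⟨i, -, e⟩ | e)
    · exact ha _ (y1 m) i e
    · obtain ⟨x, e, i, b, c⟩ := mem_iUnion₂.1 e
      exact (m3 x e i b).1.ne (congrArg f c)
  have mo : StrictMono fun l => (x l).1 := fun l k e => (x2 l k e).1
  obtain ⟨b, hb⟩ : ∃ b, p ∈ closure (a p '' {i | ∀ t, ¬∀ᶠ n in hyperfilter ℕ,
      a (y n) i ∈ (x (2 * t + b)).2.2}) := by
    by_contra e
    refine (not_or_intro (not_exists.1 e 0) (not_exists.1 e 1)) ((closure_union ..).le
      (closure_mono ?_ hp))
    rintro _ ⟨i, rfl⟩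
    by_contra k
    obtain ⟨t, ht⟩ := not_forall_not.1 (mt (fun l => Or.inl ⟨i, l, rfl⟩) k)
    obtain ⟨u, hu⟩ := not_forall_not.1 (mt (fun l => Or.inr ⟨i, l, rfl⟩) k)
    obtain ⟨n, n1, n2⟩ := (ht.and hu).exists
    have := (x1 _).2.2.2.1 _ n1
    have := (x1 _).2.2.2.1 _ n2
    obtain l | l := (by omega : 2 * t + 0 < 2 * u + 1 ∨ 2 * u + 1 < 2 * t + 0) <;>
      linarith [(x2 _ _ l).2.1]
  choose u u1 u2 u3 using fun t => CompletelyRegularSpace.completely_regular _ _
    (x1 (2 * t + b)).1.isClosed_compl (not_not.2 (x1 _).2.1)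
  have lf : LocallyFinite fun t => Function.mulSupport fun q => (u t q : ℝ) := fun q => by
    obtain ⟨n, hn⟩ := exists_nat_gt (f q)
    refine ⟨_, (isOpen_lt hf continuous_const).mem_nhds hn, (finite_lt_nat n).subset
      fun t ⟨v, v1, v2⟩ => ?_⟩
    have := ((x1 (2 * t + b)).2.2.2.1 v (by_contra fun e => v1 (congrArg Subtype.val
      (u3 t e)))).1.trans v2
    have := mo.le_apply (x := 2 * t + b)
    norm_cast at *
    exact (by omega : t < n)
  let g : Z X := ⟨fun q => projIcc 0 1 zero_le_one (∏ᶠ t, (u t q : ℝ)), continuous_projIcc.comp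
    (continuous_finprod (fun t => continuous_subtype_val.comp (u1 t)) lf)⟩
  choose h h1 h2 h3 using fun n => (by_contra fun e => by
    obtain ⟨j, hj⟩ := hs (.filter (g ∈ N ·) (.range n), .filter (fun i => ∀ t,
      ¬∀ᶠ n in hyperfilter ℕ, a (y n) i ∈ (x (2 * t + b)).2.2) (.range n))
    have := mo.le_apply (x := 2 * (j + n + 1) + b)
    have := (x1 (2 * (j + n + 1) + b)).2.2.1
    refine y2 (x (2 * (j + n + 1) + b)).2.1 _ (Finset.mem_filter.2 ⟨Finset.mem_image_of_mem s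
      (Finset.mem_range.2 (by omega : j < _)), hj ▸ e⟩) (hj ▸ ⟨g, mem_iInter₂.2 fun j e =>
        (Finset.mem_filter.1 e).2, ?_, fun i e => ?_⟩)
    · exact (congrArg _ (finprod_eq_zero (fun t => (u t _ : ℝ)) _ (congrArg Subtype.val (u2 _))
        (lf.point_finite _))).trans (projIcc_left zero_le_one)
    · obtain ⟨e, k⟩ := Finset.mem_filter.1 e
      have := Finset.mem_range.1 e
      refine (congrArg _ (finprod_eq_one_of_forall_eq_one fun t => congrArg Subtype.val
        (u3 t fun v => ?_))).trans (projIcc_right zero_le_one)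
      obtain l | rfl | l := lt_trichotomy t (j + n + 1)
      · exact k t (((x2 _ _ (by omega)).2.2 i (by omega)).2 v)
      · exact (x1 _).2.2.2.2 i (by omega) v
      · have := mo.le_apply (x := 2 * t + b)
        exact ((x2 _ _ (by omega)).2.2 i (by omega)).1 v :
    P N a (.filter (g ∈ N ·) (.range n), .filter (fun i => ∀ t,
      ¬∀ᶠ n in hyperfilter ℕ, a (y n) i ∈ (x (2 * t + b)).2.2) (.range n)) p)
  obtain ⟨w, hw⟩ := hN g ((hyperfilter ℕ).map h) fun i e => Nat.hyperfilter_le_atTop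
    ((eventually_gt_atTop i).mono fun n k => mem_iInter₂.1 (h1 n) i (Finset.mem_filter.2
      ⟨Finset.mem_range.2 k, e⟩))
  have hw : ∀ q, Tendsto (fun n => (h n).1 q) (hyperfilter ℕ) (𝓝 (w.1 q)) :=
    tendsto_pi_nhds.1 (tendsto_subtype_rng.1 hw)
  refine one (g := w) hb ?_ (tendsto_nhds_unique (hw p) (tendsto_nhds_of_eventually_eq
    (.of_forall h2)))
  rintro _ ⟨i, e, rfl⟩
  exact tendsto_nhds_unique (hw _) (tendsto_nhds_of_eventually_eq (Nat.hyperfilter_le_atTop
    ((eventually_gt_atTop i).mono fun n k => h3 n i (Finset.mem_filter.2 ⟨Finset.mem_range.2 k, e⟩))))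

theorem main (h : LS (univ : Set (Z X))) : LS (closure ((fun x : X => fun f : C(X, ℝ) => f x) ''
    {x : X | ¬IsOpen ({x} : Set X)})) := by
  obtain ⟨N, hN⟩ := toU h
  choose! a a1 a2 using fun y : X => tight h (y := y)
  set e := fun x : X => fun f : C(X, ℝ) => f x
  let M : Finset (Finset ℕ × Finset ℕ) → Set (C(X, ℝ) → ℝ) := fun T =>
    closure (e '' {y | ¬IsOpen {y} ∧ ∀ c ∈ T, ¬P N a c y})
  refine ofU M fun z hz U k => ?_
  obtain ⟨p, p1, p2⟩ : ∃ p, ¬IsOpen {p} ∧ ∀ T, (∀ c ∈ T, ¬P N a c p) → z ∈ M T := by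
    by_contra! c
    have : ∀ T, ∃ g : (C(X, ℝ) → ℝ) → unitInterval, Continuous g ∧ g z = 0 ∧
        (z ∉ M T → EqOn g 1 (M T)) := fun T => (em (z ∈ M T)).elim (fun b =>
      ⟨0, continuous_const, rfl, fun l => (l b).elim⟩) fun b =>
        (CompletelyRegularSpace.completely_regular z _ isClosed_closure b).imp fun _ l =>
          ⟨l.1, l.2.1, fun _ => l.2.2⟩
    choose g g1 g2 g3 using this
    let := metrizableSpaceMetric (Finset (Finset ℕ × Finset ℕ) → unitInterval)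
    let G := fun w => dist (g · w) (g · z)
    have G1 : Continuous G := (continuous_pi g1).dist continuous_const
    have G2 : ∀ y, ¬IsOpen {y} → G (e y) ≠ 0 := fun y b l => by
      obtain ⟨T, t1, t2⟩ := c y b
      exact one_ne_zero ((g3 T t2 (subset_closure ⟨y, ⟨b, t1⟩, rfl⟩)).symm.trans
        ((congrFun (dist_eq_zero.1 l) T).trans (g2 T)))
    let θ : C(X, ℝ) := ⟨fun x => (G (e x))⁻¹, continuous_iff_continuousAt.2 fun x =>
      (em (IsOpen {x})).elim (fun b => by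
        rw [ContinuousAt, (isOpen_singleton_iff_nhds_eq_pure x).1 b]
        exact tendsto_pure_nhds _ _) fun b => (G1.comp (continuous_pi fun f =>
          f.continuous)).continuousAt.inv₀ (G2 x b)⟩
    have := (isClosed_eq (G1.mul (continuous_apply θ)) (continuous_const (y := 1))).closure_subset_iff.2
      (image_subset_iff.2 fun y b => mul_inv_cancel₀ (G2 y b)) hz
    simp [G] at this
  have : ∀ φ : C(X, ℝ), ∃ r : ℝ, ↑(U.map (· φ)) ≤ 𝓝 r := fun φ => by
    obtain ⟨T, t1, r, t2⟩ := bdd (fun z U k => (hN z trivial U k).imp fun _ l => l.2) a1 (a2 p p1)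
      φ.continuous.abs
    exact (isCompact_Icc.ultrafilter_le_nhds' (U.map (· φ)) (Ultrafilter.mem_map.2
      (mem_of_superset (k T (p2 T t1)) ((isClosed_Icc.preimage (continuous_apply
        φ)).closure_subset_iff.2 (image_subset_iff.2 fun y b => abs_le.1 (t2 y b.1 b.2)))))).imp
          fun _ l => l.2
  choose w hw using this
  have hw : ↑U ≤ 𝓝 w := tendsto_id'.1 (tendsto_pi_nhds.2 hw)
  exact ⟨w, isClosed_closure.mem_of_tendsto (f := id) hw (mem_of_superset (k ∅ (p2 ∅ (by simp)))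
    (closure_mono (image_mono fun _ b => b.1))), hw⟩

end Pool.Agent.H.MP_d57a60
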